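import Pool.Agent.W5h24.EP.Poles
import Pool.Agent.Results.MP_0e6b5f_nt.AllFieldsHenon

/-!
# Hénon maps near every constant term

Let `x` be ANY rational number (or `∞`); there are no exceptional `x`. We consider the images `g x`
of `x` under the matrices `g ∈ SL₂(ℤ)` with entries of absolute value at most `D` (there are at
least `D² / 2` of them), where the height `H(x)` of `x` is at most a power `D ^ A` of `D`, `A < 7`; so
these are at most about `D²` rational numbers of height up to `D ^ (A + 1)`. Let `0 < κ < 1`, and if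
`A ≥ 5` let moreover `κ < (7 - A) / (A + 1)`. There are `δ, μ > 0` depending only on `A` and `κ` such that
for all large `D` and EVERY `x` all `g` outside a set of at most `D ^ (-δ)` times the number of all
`g` have the following property.

For all linear fractional transformations `m` over `ℚ` with integral matrices with entries at most
`D ^ μ` and for ALL number fields `K`, of any degree, whose ramified primes have a product of at
most `D ^ μ`, put `c = m(g(x))`. Then ALL generalized Hénon maps `f(x, y) = (y, F(y) - δ x)` over `K`,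
of any degree `d`, with `F(0) = c` and `s < κ (1 + h(c))`, where `s` is the sum of
`log N v / [K : ℚ]` over the bad primes (where `δ` or one of the coefficients `a_1, …, a_d` of `F` is
not integral or `a_d` is not a unit) have no periodic point `P` with `[K(P) : K] < d` at all, so
the set of Q1 is empty for `B < d`. There is no restriction on the archimedean sizes of `δ` and of
the `a_i`. Moreover all points `P` with `[K(P) : K] < d` escape to infinity under `f` or under its
inverse: the sum of the absolute heights of `f^(k+1) (P)` and `f^(-k-1) (P)` is at least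
`d ^ k (κ (1 + h(c)) - s)`.

The definitions `h`, `height`, `henon`, `henonInv`, `ContainsBad`, `logNorm` and `Escapes` are in
`AllFieldsHenon`, a starting file.
-/

set_option autoImplicit false
set_option linter.unusedSectionVars false

namespace Pool.Agent.Results.MP_0e6b5f_nt.EveryConstantTerm

open NumberField IsDedekindDomain Polynomial Filter Matrix
open AllFieldsHenon (h henon ContainsBad logNorm Escapes)

/-- All Hénon maps with constant term `c` and few bad primes have no periodic points of degree less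
than `d` over `K`. -/
def NoPeriodicPoints {K : Type} [Field K] [NumberField K] (κ : ℝ) (c : K) : Prop :=
  ∀ (F : K[X]) (δ : K), 2 ≤ F.natDegree → F.coeff 0 = c → δ ≠ 0 →
    ∀ T : Finset (HeightOneSpectrum (𝓞 K)), ContainsBad F δ T → logNorm T < κ * (1 + h c) →
    ∀ (L : Type) [Field L] [NumberField L] [Algebra K L], Module.finrank K L < F.natDegree →
      ∀ (P : L × L) (n : ℕ), 1 ≤ n → (henon L F δ)^[n] P ≠ P

/-- The affine coordinate `(m₀₀ y₀ + m₀₁ y₁) / (m₁₀ y₀ + m₁₁ y₁)` of the image of the point `y` of the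
line under the transformation `m`. -/
def image (m : Matrix (Fin 2) (Fin 2) ℤ) (y : ℤ × ℤ) : ℚ :=
  ((m 0 0 * y.1 + m 0 1 * y.2 : ℤ) : ℚ) / ((m 1 0 * y.1 + m 1 1 * y.2 : ℤ) : ℚ)

/-- The absolute logarithmic height of the point with the coprime coordinates `y`. -/
noncomputable def hgt (y : ℤ × ℤ) : ℝ := Real.log (max y.1.natAbs y.2.natAbs : ℕ)

/-- The image of the point `x` under `g`; coprime coordinates go to coprime coordinates. -/
def act (g : SpecialLinearGroup (Fin 2) ℤ) (x : ℤ × ℤ) : ℤ × ℤ :=
  (g 0 0 * x.1 + g 0 1 * x.2, g 1 0 * x.1 + g 1 1 * x.2)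

/-- The matrices in `SL₂(ℤ)` with entries of absolute value at most `D`. -/
def Ball (D : ℕ) : Set (SpecialLinearGroup (Fin 2) ℤ) := {g | ∀ i j, |g i j| ≤ (D : ℤ)}

/-- The statement for all constant terms `m y`, `m` a matrix with determinant not zero and entries
at most `D ^ μ`, over all number fields whose ramified primes have a product at most `D ^ μ`. The
denominator of `m y` is not zero. -/
def Holds (κ μ : ℝ) (D : ℕ) (y : ℤ × ℤ) : Prop :=
  ∀ m : Matrix (Fin 2) (Fin 2) ℤ, m.det ≠ 0 →
    (∀ i j, Real.log (m i j).natAbs ≤ μ * Real.log D) →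
    m 1 0 * y.1 + m 1 1 * y.2 ≠ 0 ∧
    ∀ (K : Type) [Field K] [NumberField K],
      ∑ p ∈ (discr K).natAbs.primeFactors, Real.log p ≤ μ * Real.log D →
        NoPeriodicPoints κ ((image m y : ℚ) : K) ∧ Escapes κ ((image m y : ℚ) : K)

/-- **Hénon maps near every constant term.** Let `A ≥ 0` and `0 < κ < 1`, and if `A ≥ 5` let moreover
`κ (A + 1) < 7 - A`. There are `δ, μ > 0` such that for all large `D` and EVERY point `x` of
the projective line over `ℚ` of height `H(x) ≤ D ^ A`, all but a proportion of at most `D ^ (-δ)` of the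
matrices `g ∈ SL₂(ℤ)` with entries of absolute value at most `D` (there are at least `D² / 2` of
these) have the property `Holds κ μ D (g x)`: no Hénon map over `K` with few bad primes and constant
term `m (g x)` has periodic points of degree less than its own degree. -/
theorem result (A κ : ℝ) (hA : 0 ≤ A) (hκ0 : 0 < κ) (hκ1 : κ < 1)
    (hκ : A < 5 ∨ κ * (A + 1) < 7 - A) :
    ∃ δ μ : ℝ, 0 < δ ∧ 0 < μ ∧ ∀ᶠ D : ℕ in atTop,
      (Ball D).Finite ∧ (D : ℝ) ^ 2 / 2 ≤ ((Ball D).ncard : ℝ) ∧
      ∀ x : ℤ × ℤ, IsCoprime x.1 x.2 → hgt x ≤ A * Real.log D →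
        (({g : SpecialLinearGroup (Fin 2) ℤ | g ∈ Ball D ∧ ¬ Holds κ μ D (act g x)}.ncard : ℕ) : ℝ) ≤
          (D : ℝ) ^ (-δ) * (Ball D).ncard := by
  obtain ⟨η, hη0, hη1, hκη, hs⟩ : ∃ η : ℝ, 0 < η ∧ η < 1 ∧ κ < 1 - η ∧
      (A < 5 ∨ (1 - η / 2) * (A + 1) < 4) := by
    rcases hκ with h | h
    · exact ⟨(1 - κ) / 2, by linarith, by linarith, by linarith, Or.inl h⟩
    · have hA1 : 0 < A + 1 := by linarith
      obtain ⟨t, ht⟩ : ∃ t, t = min ((1 - κ) / 2) ((8 - (1 + κ) * (A + 1)) / (2 * (A + 1))) := ⟨_, rfl⟩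
      have ht0 : 0 < t := by
        rw [ht]
        refine lt_min (by linarith) (div_pos ?_ (by linarith))
        nlinarith
      have ht1 : t ≤ (1 - κ) / 2 := by rw [ht]; exact min_le_left _ _
      have ht2 : t * (A + 1) ≤ (8 - (1 + κ) * (A + 1)) / 2 := by
        have h2 : t ≤ (8 - (1 + κ) * (A + 1)) / (2 * (A + 1)) := by rw [ht]; exact min_le_right _ _
        have h3 := mul_le_mul_of_nonneg_right h2 hA1.le
        have h4 : (8 - (1 + κ) * (A + 1)) / (2 * (A + 1)) * (A + 1) = (8 - (1 + κ) * (A + 1)) / 2 := by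
          field_simp
        rwa [h4] at h3
      refine ⟨1 - κ - t, by linarith, by linarith, by linarith, Or.inr ?_⟩
      have e : (1 - (1 - κ - t) / 2) * (A + 1) = ((1 + κ) * (A + 1) + t * (A + 1)) / 2 := by ring
      rw [e]
      nlinarith
  obtain ⟨δ, μ, hδ, hμ, h⟩ := Pool.Agent.W5h24.EP.bridge_sp A η hA hη0 hη1 hs (κ / ((1 - η) - κ))
  refine ⟨δ, μ, hδ, hμ, ?_⟩
  filter_upwards [h] with D hD
  obtain ⟨b1, b2, b3⟩ := hD
  refine ⟨b1, b2, fun x hx hxA => le_trans ?_ (b3 x hx hxA)⟩
  have hfin : ({g : SpecialLinearGroup (Fin 2) ℤ | g ∈ Ball D ∧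
      ¬ Pool.Agent.W5h24.EP.Poles η μ (κ / ((1 - η) - κ)) D (act g x)}).Finite :=
    Set.Finite.subset b1 fun g hg => hg.1
  refine Nat.cast_le.2 (Set.ncard_le_ncard ?_ hfin)
  rintro g ⟨hg, hbad⟩
  refine ⟨hg, fun hP => hbad ?_⟩
  intro m hm hmb
  obtain ⟨h1, h2⟩ := hP m hm hmb
  refine ⟨h1, fun K _ _ hK => ?_⟩
  obtain ⟨h3, h4⟩ := h2 K hK
  have h5 : Escapes κ ((image m (act g x) : ℚ) : K) :=
    AllFieldsHenon.esc_of (Pool.Agent.Y733.HEN.henT_of (κ' := 1 - η) (by linarith) _ h3 h4)
  refine ⟨?_, h5⟩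
  intro F δ' hd hF hδ' T hT hoth L _ _ _ hL P n hn
  exact AllFieldsHenon.part_five h5 F δ' hd hF hδ' T hT hoth L hL P n hn

end Pool.Agent.Results.MP_0e6b5f_nt.EveryConstantTerm
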