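import Pool.Agent.W5h37.HF.Total2
import Pool.Agent.W5h37.Thin.Digits
import Pool.Agent.W5h37.Thin.Smooth2
import Pool.Agent.W5h37.Thin.Squares

/-!
# Hénon maps over `ℚ`: almost all constant terms, all the other coefficients being arbitrary

The generalized Hénon maps of degree `d ≥ 2` over `ℚ` are the maps
`f (x, y) = (y, (a_0 + a_1 y + ⋯ + a_d y ^ d - δ x) / m)` with integers `a_i`, `δ`, `m`, where `a_d`,
`δ`, `m` are nonzero (in the first three parts below `δ = 0` is also allowed). We fix `a_1, …, a_d`,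
`δ`, `m`, all of absolute value at most `H`, and let only the constant term `a_0` vary from `-H` to
`H`. The constants `C` depend only on `d` and `ε`.

1. EVERY fibre: for ALL `a_1, …, a_d ≠ 0`, `δ`, `m ≠ 0` of absolute value at most `H`, the `2 H + 1`
   maps of the fibre TOGETHER have at most `C H ^ (2 / (d - 1) + ε)` rational periodic points. So for
   `d ≥ 4` all but `C H ^ (2 / (d - 1) + ε)` of the `2 H + 1` constant terms give maps without
   rational periodic points.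
2. EVERY map: each of the maps has at most `C H ^ ε h ^ (1 / (d - 1))` rational periodic points, where
   `h = max (|δ|, |m|) / gcd (δ, m)`.
3. For all leading coefficients `±a_d` in a thin set `A`, with the exception of a part of `A` smaller
   by a power, and ALL `a_1, …, a_(d - 1)`, `δ`, `m`: the maps of the fibre together have at most
   `X ^ ε` rational periodic points. The thin sets are the sets `A` of positive integers `≤ X` of
   which every progression with `N` terms contains at most `X ^ η |A| (N / X) ^ θ` elements,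
   `θ > 1 / (d - 1)`.
4. For every `m` and `d ≥ 4` all the maps (`δ ≠ 0`) with coefficients at most `H` together have at
   most `C H ^ (d + 1 + ε)` rational periodic points. The number of the maps with a rational periodic
   point is at least `H ^ (d + 1)`, and at most `C H ^ (d + 3 / 2 + ε)` for `d ≥ 3`.
5. In (1) the number of the constant terms with a rational periodic point can be as large as
   `H ^ (1 / d)`.

Idea. After a linear change the orbits of the rational periodic points are integral, and the set of all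
their coordinates, for all the maps of the fibre at once, is closed under a recursion of degree `d`. At
every place the recursion shows that the set lies in few discs, and that it lies in few discs of smaller
and smaller radius. So it has few elements, and two consecutive coordinates leave few possibilities for
`a_0`, by the same argument for the remaining recursion with one parameter.
-/

set_option autoImplicit false

namespace Pool.Agent.Results.MP_0e6b5f_nt.EveryFibre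

open Filter Pool.Agent.W5h37.Thin Pool.Agent.W5h37

/-- The Hénon map `(x, y) ↦ (y, (a_0 + a_1 y + ⋯ + a_d y ^ d - δ x) / m)`. -/
def henon {d : ℕ} (a : Fin (d + 1) → ℤ) (δ m : ℤ) (P : ℚ × ℚ) : ℚ × ℚ :=
  (P.2, ((∑ i : Fin (d + 1), (a i : ℚ) * P.2 ^ (i : ℕ)) - (δ : ℚ) * P.1) / (m : ℚ))

/-- Its rational periodic points. -/
def periodicPoints {d : ℕ} (a : Fin (d + 1) → ℤ) (δ m : ℤ) : Set (ℚ × ℚ) :=
  {P | ∃ n : ℕ, 1 ≤ n ∧ (henon a δ m)^[n] P = P}

/-- The numbers are of absolute value at most `H`, and `a_d`, `m` are nonzero. -/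
def Bounded {d : ℕ} (H : ℕ) (a : Fin (d + 1) → ℤ) (δ m : ℤ) : Prop :=
  (∀ i, |a i| ≤ (H : ℤ)) ∧ |δ| ≤ (H : ℤ) ∧ |m| ≤ (H : ℤ) ∧ a (Fin.last d) ≠ 0 ∧ m ≠ 0

/-- The pairs of an integer `t` from `-H` to `H` and a rational periodic point of the map with the
constant term `t` in place of `a_0`. -/
def fibrePoints {d : ℕ} (H : ℕ) (a : Fin (d + 1) → ℤ) (δ m : ℤ) : Set (ℤ × (ℚ × ℚ)) :=
  {q | |q.1| ≤ (H : ℤ) ∧ q.2 ∈ periodicPoints (Function.update a 0 q.1) δ m}

/-- The integers `t` from `-H` to `H` such that the map with the constant term `t` in place of `a_0`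
has a rational periodic point. -/
def badTerms {d : ℕ} (H : ℕ) (a : Fin (d + 1) → ℤ) (δ m : ℤ) : Set ℤ :=
  {t | |t| ≤ (H : ℤ) ∧ (periodicPoints (Function.update a 0 t) δ m).Nonempty}

/-- The maps with denominator `m` and a rational periodic point. -/
def mapsPer (d H : ℕ) (m : ℤ) : Set ((Fin (d + 1) → ℤ) × ℤ) :=
  {q | (∀ i, |q.1 i| ≤ (H : ℤ)) ∧ |q.2| ≤ (H : ℤ) ∧ q.1 (Fin.last d) ≠ 0 ∧ q.2 ≠ 0 ∧
    (periodicPoints q.1 q.2 m).Nonempty}

/-- The pairs of a map with denominator `m` and one of its rational periodic points. -/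
def allPoints (d H : ℕ) (m : ℤ) : Set (((Fin (d + 1) → ℤ) × ℤ) × (ℚ × ℚ)) :=
  {q | (∀ i, |q.1.1 i| ≤ (H : ℤ)) ∧ |q.1.2| ≤ (H : ℤ) ∧ q.1.1 (Fin.last d) ≠ 0 ∧ q.1.2 ≠ 0 ∧
    q.2 ∈ periodicPoints q.1.1 q.1.2 m}

/-- **Hénon maps over `ℚ`: almost all constant terms, all the other coefficients arbitrary.** -/
theorem result (d : ℕ) (hd : 2 ≤ d) :
    -- (1) Every fibre.
    (∀ ε : ℝ, 0 < ε → ∃ C : ℝ, ∀ (H : ℕ) (a : Fin (d + 1) → ℤ) (δ m : ℤ), 1 ≤ H →
      Bounded H a δ m → (fibrePoints H a δ m).Finite ∧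
        ((fibrePoints H a δ m).ncard : ℝ) ≤ C * (H : ℝ) ^ (2 / (d - 1) + ε : ℝ) ∧
        ((badTerms H a δ m).ncard : ℝ) ≤ C * (H : ℝ) ^ (2 / (d - 1) + ε : ℝ)) ∧
    -- (2) Every map.
    (∀ ε : ℝ, 0 < ε → ∃ C : ℝ, ∀ (H : ℕ) (a : Fin (d + 1) → ℤ) (δ m : ℤ), 1 ≤ H →
      Bounded H a δ m → (periodicPoints a δ m).Finite ∧
        ((periodicPoints a δ m).ncard : ℝ) ≤ C * (H : ℝ) ^ ε *
          ((max δ.natAbs m.natAbs : ℕ) / (Int.gcd δ m : ℝ)) ^ (1 / (d - 1) : ℝ)) ∧
    -- (3) Leading coefficients in thin sets.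
    (3 ≤ d → ∀ θ ε : ℝ, 0 < θ → θ ≤ 1 → 1 < ((d - 1 : ℕ) : ℝ) * θ → 0 < ε →
      ∃ κ η : ℝ, 0 < κ ∧ 0 < η ∧ ∀ᶠ X : ℕ in atTop, ∀ A : Finset ℕ,
        Spread X θ ((X : ℝ) ^ η) A → ∃ S : Finset ℕ, S ⊆ A ∧
          (S.card : ℝ) ≤ (X : ℝ) ^ (-κ) * (A.card : ℝ) ∧
          ∀ z ∈ A, z ∉ S → ∀ (a : Fin (d + 1) → ℤ) (δ m : ℤ), Bounded X a δ m →
            |a (Fin.last d)| = (z : ℤ) → (fibrePoints X a δ m).Finite ∧
              ((fibrePoints X a δ m).ncard : ℝ) ≤ (X : ℝ) ^ ε) ∧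
    -- (4) All maps.
    (∀ ε : ℝ, 0 < ε → ∃ C : ℝ, ∀ (H : ℕ) (m : ℤ), 1 ≤ H → |m| ≤ (H : ℤ) → m ≠ 0 →
      (4 ≤ d → (allPoints d H m).Finite ∧
        ((allPoints d H m).ncard : ℝ) ≤ C * (H : ℝ) ^ (d + 1 + ε : ℝ)) ∧
      (3 ≤ d → ((mapsPer d H m).ncard : ℝ) ≤ C * (H : ℝ) ^ (d + 3 / 2 + ε : ℝ)) ∧
      (H : ℝ) ^ (d + 1) ≤ (mapsPer d H m).ncard) ∧
    -- (5) A fibre with many maps with a rational periodic point.
    (∀ n H : ℕ, n ^ d ≤ H → n ≤ (badTerms H (fun i : Fin (d + 1) => if i = Fin.last d then 1 else 0)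
      (-1) 1).ncard) ∧
    -- (6) Examples for (3): integers with restricted digits, smooth numbers, squares.
    (∀ (g : ℕ) (D : ℕ → Finset ℕ) (θ η : ℝ), 2 ≤ g → (∀ i, D i ⊆ Finset.range g) → 0 < θ → θ ≤ 1 →
      (∀ i, (g : ℝ) ^ θ ≤ (D i).card) → 0 < η →
      ∀ᶠ n : ℕ in atTop, Spread (g ^ n) θ (((g ^ n : ℕ) : ℝ) ^ η) (Restricted g D n)) ∧
    (∀ κ η : ℝ, 2 < κ → 0 < η → ∀ᶠ X : ℕ in atTop, ∀ k : ℕ, (Real.log X) ^ κ ≤ k →
      Spread X (1 - 1 / κ) ((X : ℝ) ^ η) (Nat.smoothNumbersUpTo X k)) ∧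
    (∀ η : ℝ, 0 < η → ∀ᶠ X : ℕ in atTop, Spread X (1 / 2) ((X : ℝ) ^ η) (Squares X)) := by
  refine ⟨?_, ?_, ?_, ?_, ?_, ?_, ?_, ?_⟩
  · intro ε hε
    obtain ⟨C, hC⟩ := HF.every d hd ε hε
    refine ⟨C, fun H a δ m hH hB => ?_⟩
    obtain ⟨h1, h2, h3, h4, h5⟩ := hB
    obtain ⟨e1, e2⟩ := hC H hH a δ m h1 h2 h3 h4 h5
    have e3 : (((HF.Bad H a δ m).ncard : ℕ) : ℝ) ≤ ((HF.Prs H a δ m).ncard : ℝ) := by
      exact_mod_cast HF.bad_le_prs H a δ m e1
    exact ⟨e1, e2, e3.trans e2⟩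
  · intro ε hε
    obtain ⟨C, hC⟩ := HF.single d hd ε hε
    refine ⟨C, fun H a δ m hH hB => ?_⟩
    obtain ⟨h1, h2, h3, h4, h5⟩ := hB
    exact hC H hH a δ m h1 h2 h3 h4 h5
  · intro hd3 θ ε hθ hθ1 hθd hε
    obtain ⟨κ, η, hκ, hη, h⟩ := HF.thin_lead d hd3 θ ε hθ hθ1 hθd hε
    refine ⟨κ, η, hκ, hη, ?_⟩
    filter_upwards [h] with X hX A hA
    obtain ⟨S, hSA, hS, hgood⟩ := hX A hA
    refine ⟨S, hSA, hS, fun z hz hzS a δ m hB haz => ?_⟩
    obtain ⟨h1, h2, h3, -, h5⟩ := hB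
    exact hgood z hz hzS a δ m h1 h2 h3 haz h5
  · intro ε hε
    have h4 : ∃ C : ℝ, 0 < C ∧ ∀ (H : ℕ) (m : ℤ), 1 ≤ H → |m| ≤ (H : ℤ) → m ≠ 0 → 4 ≤ d →
        (allPoints d H m).Finite ∧
          ((allPoints d H m).ncard : ℝ) ≤ C * (H : ℝ) ^ (d + 1 + ε : ℝ) := by
      by_cases h : 4 ≤ d
      · obtain ⟨C, hC0, hC⟩ := HF.totalP d h ε hε
        exact ⟨C, hC0, fun H m hH hm hm0 _ => hC H hH m hm hm0⟩
      · exact ⟨1, one_pos, fun _ _ _ _ _ h' => absurd h' h⟩
    have h3 : ∃ C : ℝ, 0 < C ∧ ∀ (H : ℕ) (m : ℤ), 1 ≤ H → |m| ≤ (H : ℤ) → m ≠ 0 → 3 ≤ d →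
        ((mapsPer d H m).ncard : ℝ) ≤ C * (H : ℝ) ^ (d + 3 / 2 + ε : ℝ) := by
      by_cases h : 3 ≤ d
      · obtain ⟨C, hC0, hC⟩ := HF.total3 d h ε hε
        exact ⟨C, hC0, fun H m hH hm hm0 _ => hC H hH m hm hm0⟩
      · exact ⟨1, one_pos, fun _ _ _ _ _ h' => absurd h' h⟩
    obtain ⟨C4, hC40, hC4⟩ := h4
    obtain ⟨C3, hC30, hC3⟩ := h3
    refine ⟨max C4 C3, fun H m hH hm hm0 => ⟨fun h => ?_, fun h => ?_, ?_⟩⟩
    · obtain ⟨e1, e2⟩ := hC4 H m hH hm hm0 h
      refine ⟨e1, e2.trans ?_⟩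
      gcongr
      exact le_max_left _ _
    · refine (hC3 H m hH hm hm0 h).trans ?_
      gcongr
      exact le_max_right _ _
    · have := HF.total_lower d H (by omega) m
      exact_mod_cast this
  · intro n H hn
    classical
    have hfin := HF.bad_finite (d := d) H (fun i : Fin (d + 1) => if i = Fin.last d then 1 else 0)
      (-1) 1
    change n ≤ (HF.Bad H (fun i : Fin (d + 1) => if i = Fin.last d then (1 : ℤ) else 0) (-1) 1).ncard
    rw [Set.ncard_eq_toFinset_card _ hfin]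
    have h1 : (Finset.Icc 1 n).image (fun x : ℕ => -((x : ℤ) ^ d)) ⊆ hfin.toFinset := by
      intro t ht
      obtain ⟨x, hx, rfl⟩ := Finset.mem_image.1 ht
      rw [Finset.mem_Icc] at hx
      rw [Set.Finite.mem_toFinset]
      refine ⟨?_, (x, x), 1, le_rfl, ?_⟩
      · rw [abs_neg, abs_of_nonneg (by positivity)]
        have : x ^ d ≤ H := (Nat.pow_le_pow_left hx.2 d).trans hn
        exact_mod_cast this
      · rw [Function.iterate_one]
        unfold HF.hen
        have h2 : ∑ i : Fin (d + 1), ((Function.update (fun i : Fin (d + 1) =>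
            if i = Fin.last d then (1 : ℤ) else 0) 0 (-((x : ℤ) ^ d)) i : ℤ) : ℚ) *
            (x : ℚ) ^ (i : ℕ) = 0 := by
          obtain ⟨e, rfl⟩ : ∃ e, d = e + 1 := ⟨d - 1, by omega⟩
          rw [Fin.sum_univ_succ, Fin.sum_univ_castSucc]
          have h3 : ∑ i : Fin e, ((Function.update (fun i : Fin (e + 1 + 1) =>
              if i = Fin.last (e + 1) then (1 : ℤ) else 0) 0 (-((x : ℤ) ^ (e + 1)))
              i.castSucc.succ : ℤ) : ℚ) * (x : ℚ) ^ (i.castSucc.succ : ℕ) = 0 := by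
            refine Finset.sum_eq_zero fun i _ => ?_
            rw [Function.update_of_ne (Fin.succ_ne_zero _), if_neg]
            · simp
            · intro h0
              have := congrArg Fin.val h0
              simp only [Fin.val_succ, Fin.val_castSucc, Fin.val_last] at this
              omega
          rw [h3, Function.update_self, Function.update_of_ne (Fin.succ_ne_zero _),
            if_pos (Fin.succ_last e)]
          push_cast
          simp
        simp only at h2 ⊢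
        rw [h2]
        simp
    refine le_trans ?_ (Finset.card_le_card h1)
    rw [Finset.card_image_of_injOn]
    · simp
    · intro x _ y _ hxy
      simp only [neg_inj] at hxy
      have h3 : x ^ d = y ^ d := by exact_mod_cast hxy
      exact Nat.pow_left_injective (by omega : d ≠ 0) h3
  · intro g D θ η hg hD hθ0 hθ1 hD2 hη
    have hg1 : (1 : ℝ) < g := by exact_mod_cast (by omega : 1 < g)
    have htop : Tendsto (fun n : ℕ => g ^ n) atTop atTop :=
      tendsto_pow_atTop_atTop_of_one_lt (by omega)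
    filter_upwards [htop.eventually (ev_const (4 * (g : ℝ) ^ 2) η hη), eventually_ge_atTop 1] with
      n hn hn1
    have h := spread_digits hg hD hθ0 hθ1 hD2 hn1
    refine ⟨h.1, h.2.1, fun c d N hd hN => (h.2.2 c d N hd hN).trans ?_⟩
    have h0 := h.card_pos
    gcongr
  · intro κ η hκ hη
    exact spread_smooth hκ hη
  · intro η hη
    exact spread_squares η hη

end Pool.Agent.Results.MP_0e6b5f_nt.EveryFibre
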