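import Mathlib

/-!
# Hénon maps with rational cycles of quadratic length

For every degree `d ≥ 7` there is a generalized Hénon map `f(x, y) = (y, F(y) + x)` of degree `d` over
`ℚ` (or over any other field of characteristic zero) with a rational cycle of exact length at least
`(d - 4)² / 2 + 2`; more precisely all the lengths `4ab + 4` with `a, b ≥ 1`, `2a + b + 4 ≤ d` occur.
So the cycles of the `K`-rational periodic points in Q1 can have a length that is quadratic in `d`;
the linear algebra construction in the problem file gives the length `d + 2`.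

Construction. The polynomial `F` interpolates small integers at `0, 1, ..., 2a + b + 3`. The numbers
`1, ..., b + 1` are rows and `b + 2, ..., 2a + b + 3` are columns; `F` vanishes at the inner rows, so
that the orbit of `(row, column)` stays in its column until it meets one of the rows `1`, `b + 1`,
and `F` is `1` and `-1` alternately at the columns, so that the orbit goes up in one column and down
in the next one. The values at the rows `1` and `b + 1` move the orbit to the next column. After the
last column the orbit is brought back by the values at `0` and at the first and the last column.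
-/

set_option autoImplicit false

namespace Pool.Agent.Results.MP_0e6b5f_nt.QuadraticallyLongCycles

open Polynomial

/-- The generalized Hénon map `f(x, y) = (y, F(y) - δ x)`. -/
def henon {K : Type*} [Field K] (F : K[X]) (δ : K) (P : K × K) : K × K :=
  (P.2, F.eval P.2 - δ * P.1)

/-- The prescribed values of `F` at `0, 1, ..., 2a + b + 3`. -/
def val (a b n : ℕ) : ℤ :=
  if n = 0 then -(2 * a + 1) else if n = 1 then 1 else if n ≤ b then 0 else
  if n = b + 1 then 1 else if n = b + 2 then 1 else if n = 2 * a + b + 3 then -1 else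
  if (n - (b + 3)) % 2 = 0 then 1 else -1

lemma val_zero (a b : ℕ) : val a b 0 = -(2 * a + 1) := by
  unfold val; rw [if_pos rfl]

lemma val_one (a b : ℕ) : val a b 1 = 1 := by
  unfold val; rw [if_neg (by omega), if_pos rfl]

lemma val_mid {a b n : ℕ} (h1 : 2 ≤ n) (h2 : n ≤ b) : val a b n = 0 := by
  unfold val; rw [if_neg (by omega), if_neg (by omega), if_pos h2]

lemma val_top {a b : ℕ} (hb : 1 ≤ b) : val a b (b + 1) = 1 := by
  unfold val; rw [if_neg (by omega), if_neg (by omega), if_neg (by omega), if_pos rfl]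

lemma val_first (a b : ℕ) : val a b (b + 2) = 1 := by
  unfold val
  rw [if_neg (by omega), if_neg (by omega), if_neg (by omega), if_neg (by omega), if_pos rfl]

lemma val_last (a b : ℕ) : val a b (b + 3 + 2 * a) = -1 := by
  unfold val
  rw [if_neg (by omega), if_neg (by omega), if_neg (by omega), if_neg (by omega),
    if_neg (by omega), if_pos (by omega)]

lemma val_even {a b c : ℕ} (hc : c < 2 * a) (h : c % 2 = 0) : val a b (b + 3 + c) = 1 := by
  unfold val
  rw [if_neg (by omega), if_neg (by omega), if_neg (by omega), if_neg (by omega),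
    if_neg (by omega), if_neg (by omega), if_pos (by omega)]

lemma val_odd {a b c : ℕ} (_ : c < 2 * a) (h : c % 2 = 1) : val a b (b + 3 + c) = -1 := by
  unfold val
  rw [if_neg (by omega), if_neg (by omega), if_neg (by omega), if_neg (by omega),
    if_neg (by omega), if_neg (by omega), if_neg (by omega)]

/-- the row of the orbit after `j` double steps in the column `c` -/
def row (b c j : ℕ) : ℕ := if c % 2 = 0 then 1 + j else b + 1 - j

section
variable {K : Type*} [Field K] [CharZero K]

/-- interpolation with a polynomial of exact degree `d` -/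
lemma exists_poly (N d : ℕ) (hd : N ≤ d) (v : ℕ → K) :
    ∃ F : K[X], F.natDegree = d ∧ ∀ n < N, F.eval (n : K) = v n := by
  classical
  set I : K[X] := Lagrange.interpolate (Finset.range N) (fun n : ℕ => (n : K)) v with hI
  set M : K[X] := Lagrange.nodal (Finset.range N) (fun n : ℕ => (n : K)) * X ^ (d - N) with hM
  have hinj : Set.InjOn (fun n : ℕ => (n : K)) (Finset.range N : Set ℕ) :=
    fun x _ y _ h => Nat.cast_injective h
  have hmonic : (Lagrange.nodal (Finset.range N) (fun n : ℕ => (n : K))).Monic :=
    Lagrange.nodal_monic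
  have hMd : M.natDegree = d := by
    rw [hM, hmonic.natDegree_mul (monic_X_pow _), Lagrange.natDegree_nodal, natDegree_X_pow,
      Finset.card_range]
    omega
  have hMm : M.Monic := hmonic.mul (monic_X_pow _)
  have hId : I.degree < M.degree := by
    have h1 : I.degree < (Finset.range N).card := Lagrange.degree_interpolate_lt v hinj
    rw [degree_eq_natDegree hMm.ne_zero, hMd]
    rw [Finset.card_range] at h1
    exact lt_of_lt_of_le h1 (by exact_mod_cast hd)
  refine ⟨I + M, ?_, fun n hn => ?_⟩
  · rw [natDegree_eq_of_degree_eq (degree_add_eq_right_of_degree_lt hId), hMd]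
  · rw [eval_add, hI, Lagrange.eval_interpolate_at_node v hinj (Finset.mem_range.2 hn), hM,
      eval_mul, Lagrange.eval_nodal_at_node (Finset.mem_range.2 hn)]
    simp

variable {a b : ℕ} {F : K[X]}

lemma two_step (hF : ∀ n < 2 * a + b + 4, F.eval (n : K) = (val a b n : K)) {x z x' z' : ℕ}
    (hz : z < 2 * a + b + 4) (hx' : x' < 2 * a + b + 4) (h1 : (x' : ℤ) = x + val a b z)
    (h2 : (z' : ℤ) = z + val a b x') :
    henon F (-1) (henon F (-1) ((x : K), (z : K))) = ((x' : K), (z' : K)) := by
  have e1 : (x' : K) = x + (val a b z : K) := by exact_mod_cast congrArg (Int.cast : ℤ → K) h1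
  have e2 : (z' : K) = z + (val a b x' : K) := by exact_mod_cast congrArg (Int.cast : ℤ → K) h2
  have e3 : henon F (-1) ((x : K), (z : K)) = ((z : K), (x' : K)) := by
    simp only [henon, hF z hz, e1]
    rw [Prod.mk.injEq]
    exact ⟨rfl, by ring⟩
  rw [e3]
  simp only [henon, hF x' hx', e2]
  rw [Prod.mk.injEq]
  exact ⟨rfl, by ring⟩

/-- the position after `j` double steps in the column `c` -/
def pos (K : Type*) [Field K] (b c j : ℕ) : K × K := ((row b c j : ℕ), ((b + 3 + c : ℕ) : K))

/-- the double step -/
def dbl (F : K[X]) (P : K × K) : K × K := henon F (-1) (henon F (-1) P)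

lemma row_even {b c j : ℕ} (h : c % 2 = 0) : row b c j = 1 + j := by
  unfold row; rw [if_pos h]

lemma row_odd {b c j : ℕ} (h : c % 2 = 1) : row b c j = b + 1 - j := by
  unfold row; rw [if_neg (by omega)]

lemma dbl_inner (hF : ∀ n < 2 * a + b + 4, F.eval (n : K) = (val a b n : K)) {c j : ℕ}
    (hc : c < 2 * a) (hj : j + 1 < b) : dbl F (pos K b c j) = pos K b c (j + 1) := by
  unfold dbl pos
  rcases Nat.mod_two_eq_zero_or_one c with h | h
  · rw [row_even h, row_even h]
    refine two_step hF (by omega) (by omega) ?_ ?_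
    · rw [val_even hc h]; push_cast; ring
    · rw [val_mid (by omega) (by omega)]; push_cast; ring
  · rw [row_odd h, row_odd h]
    refine two_step hF (by omega) (by omega) ?_ ?_
    · rw [val_odd hc h]; omega
    · rw [val_mid (by omega) (by omega)]; push_cast; ring

lemma dbl_turn (hF : ∀ n < 2 * a + b + 4, F.eval (n : K) = (val a b n : K)) {c j : ℕ}
    (hc : c < 2 * a) (hj : j + 1 = b) : dbl F (pos K b c j) = pos K b (c + 1) 0 := by
  unfold dbl pos
  subst hj
  rcases Nat.mod_two_eq_zero_or_one c with h | h
  · rw [row_even h, row_odd (show (c + 1) % 2 = 1 by omega)]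
    refine two_step hF (by omega) (by omega) ?_ ?_
    · rw [val_even hc h]; push_cast; omega
    · rw [Nat.sub_zero, val_top (by omega)]; push_cast; ring
  · rw [row_odd h, row_even (show (c + 1) % 2 = 0 by omega)]
    refine two_step hF (by omega) (by omega) ?_ ?_
    · rw [val_odd hc h]; omega
    · rw [Nat.add_zero, val_one]; push_cast; ring

lemma iter_inner (hF : ∀ n < 2 * a + b + 4, F.eval (n : K) = (val a b n : K)) {c : ℕ}
    (hc : c < 2 * a) : ∀ j < b, (dbl F)^[j] (pos K b c 0) = pos K b c j := by
  intro j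
  induction j with
  | zero => intro _; rfl
  | succ j ih =>
    intro hj
    rw [Function.iterate_succ_apply', ih (by omega), dbl_inner hF hc hj]

lemma iter_col (hF : ∀ n < 2 * a + b + 4, F.eval (n : K) = (val a b n : K)) (hb : 1 ≤ b) :
    ∀ c ≤ 2 * a, (dbl F)^[c * b] (pos K b 0 0) = pos K b c 0 := by
  intro c
  induction c with
  | zero => intro _; simp
  | succ c ih =>
    intro hc
    have h1 : (c + 1) * b = (b - 1 + 1) + c * b := by
      rw [Nat.sub_add_cancel hb]; ring
    rw [h1, Function.iterate_add_apply, ih (by omega), Function.iterate_succ_apply',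
      iter_inner hF (by omega) (b - 1) (by omega), dbl_turn hF (by omega) (by omega)]

lemma dbl_last (hF : ∀ n < 2 * a + b + 4, F.eval (n : K) = (val a b n : K)) :
    dbl F (pos K b (2 * a) 0) = (((0 : ℕ) : K), ((b + 2 : ℕ) : K)) := by
  unfold dbl pos
  rw [row_even (show 2 * a % 2 = 0 by omega)]
  refine two_step hF (by omega) (by omega) ?_ ?_
  · rw [val_last]; norm_num
  · rw [val_zero]; push_cast; ring

lemma dbl_back (hF : ∀ n < 2 * a + b + 4, F.eval (n : K) = (val a b n : K)) :
    dbl F (((0 : ℕ) : K), ((b + 2 : ℕ) : K)) = pos K b 0 0 := by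
  unfold dbl pos
  rw [row_even (show 0 % 2 = 0 by omega)]
  refine two_step hF (by omega) (by omega) ?_ ?_
  · rw [val_first]; norm_num
  · rw [Nat.add_zero, val_one]; push_cast; ring

lemma orbit (hF : ∀ n < 2 * a + b + 4, F.eval (n : K) = (val a b n : K)) (ha : 1 ≤ a)
    (hb : 1 ≤ b) (k : ℕ) (hk : k < 2 * a * b + 2) :
    ∃ x z : ℕ, (dbl F)^[k] (pos K b 0 0) = ((x : K), (z : K)) ∧ b + 2 ≤ z ∧
      (x = 1 → z = b + 3 → k = 0) := by
  rcases lt_trichotomy k (2 * a * b) with h | h | h
  · have hc : k / b < 2 * a := (Nat.div_lt_iff_lt_mul hb).2 h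
    have hj : k % b < b := Nat.mod_lt _ hb
    have hk' : k = k % b + k / b * b := by
      have := Nat.mod_add_div k b
      rw [mul_comm b] at this
      exact this.symm
    have e : (dbl F)^[k] (pos K b 0 0) = pos K b (k / b) (k % b) := by
      conv_lhs => rw [hk']
      rw [Function.iterate_add_apply, iter_col hF hb _ hc.le, iter_inner hF hc _ hj]
    refine ⟨row b (k / b) (k % b), b + 3 + k / b, e,
      le_trans (Nat.le_succ (b + 2)) (Nat.le_add_right _ _), fun h1 h2 => ?_⟩
    have h3 : k / b = 0 := Nat.add_left_cancel (h2.trans (Nat.add_zero _).symm)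
    rw [h3] at h1
    have h4 : k % b = 0 := by
      simp only [row, Nat.zero_mod, if_true] at h1
      omega
    rw [hk', h3, h4]
    simp
  · refine ⟨1, b + 3 + 2 * a, ?_, by omega, fun _ h2 => by omega⟩
    rw [h, iter_col hF hb _ le_rfl]
    simp [pos, row]
  · have h' : k = 2 * a * b + 1 := by omega
    refine ⟨0, b + 2, ?_, le_rfl, fun h1 => by omega⟩
    rw [h', Function.iterate_succ_apply', iter_col hF hb _ le_rfl, dbl_last hF]

lemma orbit_closed (hF : ∀ n < 2 * a + b + 4, F.eval (n : K) = (val a b n : K))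
    (hb : 1 ≤ b) : (dbl F)^[2 * a * b + 2] (pos K b 0 0) = pos K b 0 0 := by
  rw [Function.iterate_succ_apply', Function.iterate_succ_apply', iter_col hF hb _ le_rfl,
    dbl_last hF, dbl_back hF]

omit [CharZero K] in
lemma iterate_two_mul (F : K[X]) (k : ℕ) (P : K × K) :
    (henon F (-1))^[2 * k] P = (dbl F)^[k] P := by
  rw [Function.iterate_mul]
  rfl

lemma minimalPeriod_eq (hF : ∀ n < 2 * a + b + 4, F.eval (n : K) = (val a b n : K))
    (ha : 1 ≤ a) (hb : 1 ≤ b) :
    Function.minimalPeriod (henon F (-1)) (pos K b 0 0) = 4 * a * b + 4 := by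
  have hper : Function.IsPeriodicPt (henon F (-1)) (2 * (2 * a * b + 2)) (pos K b 0 0) := by
    unfold Function.IsPeriodicPt Function.IsFixedPt
    rw [iterate_two_mul, orbit_closed hF hb]
  have hle := hper.minimalPeriod_le (by omega)
  have hpos : 0 < Function.minimalPeriod (henon F (-1)) (pos K b 0 0) :=
    hper.minimalPeriod_pos (by omega)
  have hmin := Function.iterate_minimalPeriod (f := henon F (-1)) (x := pos K b 0 0)
  set n := Function.minimalPeriod (henon F (-1)) (pos K b 0 0) with hn
  by_contra hne
  have hlt : n < 2 * (2 * a * b + 2) := by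
    have : 4 * a * b + 4 = 2 * (2 * a * b + 2) := by ring
    omega
  have hp0 : pos K b 0 0 = (((1 : ℕ) : K), ((b + 3 : ℕ) : K)) := by simp [pos, row]
  obtain ⟨k, hk | hk⟩ : ∃ k, n = 2 * k ∨ n = 2 * k + 1 := ⟨n / 2, by omega⟩
  · obtain ⟨x, z, h1, h2, h3⟩ := orbit hF ha hb k (by omega)
    rw [hk, iterate_two_mul, h1, hp0, Prod.mk.injEq] at hmin
    have := h3 (by exact_mod_cast hmin.1) (by exact_mod_cast hmin.2)
    omega
  · obtain ⟨x, z, h1, h2, h3⟩ := orbit hF ha hb k (by omega)
    rw [hk, Function.iterate_succ_apply', iterate_two_mul, h1, hp0] at hmin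
    have h4 := congrArg Prod.fst hmin
    simp only [henon] at h4
    have h5 : z = 1 := by exact_mod_cast h4
    omega

end

/-- **Rational cycles of quadratic length.** Let `K` be a field of characteristic zero (for instance
`ℚ` or a number field).
1. For all `a, b ≥ 1` and all `d ≥ 2a + b + 4` there is a generalized Hénon map
`f(x, y) = (y, F(y) + x)` of degree `d` over `K` and a point of `K²` of exact period `4ab + 4`.
2. So for every `d ≥ 7` there is a generalized Hénon map of degree `d` over `K` and a point of `K²`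
whose exact period is at least `((d - 4)² + 4) / 2`. -/
theorem result (K : Type*) [Field K] [CharZero K] :
    (∀ a b d : ℕ, 1 ≤ a → 1 ≤ b → 2 * a + b + 4 ≤ d → ∃ (F : K[X]) (P : K × K),
      F.natDegree = d ∧ Function.minimalPeriod (henon F (-1)) P = 4 * a * b + 4) ∧
    (∀ d : ℕ, 7 ≤ d → ∃ (F : K[X]) (P : K × K), F.natDegree = d ∧
      (d - 4) ^ 2 + 4 ≤ 2 * Function.minimalPeriod (henon F (-1)) P) := by
  have main : ∀ a b d : ℕ, 1 ≤ a → 1 ≤ b → 2 * a + b + 4 ≤ d → ∃ (F : K[X]) (P : K × K),
      F.natDegree = d ∧ Function.minimalPeriod (henon F (-1)) P = 4 * a * b + 4 := by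
    intro a b d ha hb hd
    obtain ⟨F, hFd, hF⟩ := exists_poly (K := K) (2 * a + b + 4) d hd (fun n => (val a b n : K))
    exact ⟨F, pos K b 0 0, hFd, minimalPeriod_eq hF ha hb⟩
  refine ⟨main, fun d hd => ?_⟩
  obtain ⟨F, P, h1, h2⟩ := main ((d - 3) / 4) (d - 4 - 2 * ((d - 3) / 4)) d (by omega) (by omega)
    (by omega)
  refine ⟨F, P, h1, ?_⟩
  rw [h2]
  obtain ⟨q, r, hr, hdq⟩ : ∃ q r, r < 4 ∧ d - 3 = 4 * q + r :=
    ⟨(d - 3) / 4, (d - 3) % 4, Nat.mod_lt _ (by norm_num), (Nat.div_add_mod _ _).symm⟩
  have hq : (d - 3) / 4 = q := by omega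
  have hb' : d - 4 - 2 * q = 2 * q + r - 1 := by omega
  have hd4 : d - 4 = 4 * q + r - 1 := by omega
  have hq1 : 1 ≤ q := by omega
  rw [hq, hb', hd4]
  obtain ⟨p, rfl⟩ : ∃ p, q = p + 1 := ⟨q - 1, by omega⟩
  have e1 : 2 * (p + 1) + r - 1 = 2 * p + r + 1 := by omega
  have e2 : 4 * (p + 1) + r - 1 = 4 * p + r + 3 := by omega
  rw [e1, e2]
  interval_cases r <;> nlinarith

end Pool.Agent.Results.MP_0e6b5f_nt.QuadraticallyLongCycles
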