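import Pool.Agent.W5h9.GC.Sp
import Pool.Agent.W5h9.GC.CovMain
import Pool.Agent.Results.MP_0e6b5f_nt.AllFieldsHenon

/-!
# Hénon maps whose constant term is close to a number with restricted partial quotients

Let `𝒜` be a finite set of positive integers and let `E_𝒜` be the (fractal) set of the numbers
`[0; a_0, a_1, …]` with all partial quotients in `𝒜`, a set of Lebesgue measure zero. We assume that
its Hausdorff dimension `δ` is larger than `1 / 2`, as for `𝒜 = {1, 2, 3}`.

For almost all `z ∈ E_𝒜` (for the Hausdorff measure of dimension `δ`) and all `κ < 1` there is `μ > 0`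
such that for all but finitely many rational numbers `x` with `|z - x| ≤ H(x) ^ (μ - 2)`, for example
for almost all convergents of `z`, for all linear fractional transformations `m` over `ℚ` of
height at most `H(x) ^ μ` and for ALL number fields `K`, of any degree, whose ramified primes have a
product of at most `H(x) ^ μ`, the following holds with `c = m(x)`: ALL generalized Hénon maps
`f(x, y) = (y, F(y) - δ x)` over `K`, of any degree `d`, with `F(0) = c` and
`s < κ (1 + h(c))`, where `s` is the sum of `log N v / [K : ℚ]` over the bad primes (where `δ` or one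
of the coefficients `a_1, …, a_d` of `F` is not integral or `a_d` is not a unit) have no periodic
point `P` with `[K(P) : K] < d` at all, so the set of Q1 is empty for `B < d`. There is no restriction
on the archimedean sizes of `δ` and of the `a_i`, which may depend on `x`. Moreover all points `P`
with `[K(P) : K] < d` escape to infinity under `f` or under its inverse, the sum of the absolute
heights of `f^(k+1) (P)` and `f^(-k-1) (P)` is at least `d ^ k (κ (1 + h(c)) - s)`.

The exceptional `z` for a given `κ` form a set of smaller Hausdorff dimension.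

The definitions `h`, `height`, `henon`, `henonInv`, `ContainsBad`, `logNorm` and `Escapes` are in
`AllFieldsHenon`, a starting file. The definitions `EA`, `δ`, `Near` and `hgt` are in
`Pool.Agent.W5h9.GC`:

* `K w = (q, p)`, where `[0; w] = p / q` is the finite continued fraction of the word `w`,
  `pre a n = [a 0, …, a (n - 1)]`, and `val a` is the limit of the `p / q` with `K (pre a n) = (q, p)`;
* `EA 𝒜` is the set of the `val a` with all `a i ∈ 𝒜`, and `δ 𝒜` is its Hausdorff dimension;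
* `hgt x = log max (|p|, |q|)` for `x = (p, q)`;
* `Near ρ z`: the pairs `x = (p, q)` of coprime integers, `q > 0`, with `|z - p / q| ≤ q ^ (ρ - 2)`.
-/

set_option autoImplicit false
set_option linter.unusedSectionVars false

namespace Pool.Agent.Results.MP_0e6b5f_nt.RestrictedPartialQuotients

open NumberField IsDedekindDomain MeasureTheory Polynomial
open Pool.Agent.W5h9.GC (EA δ Near hgt)
open AllFieldsHenon (h henon ContainsBad logNorm Escapes)

/-- All Hénon maps with constant term `c` and few bad primes have no periodic points of degree less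
than `d` over `K`. -/
def NoPeriodicPoints {K : Type} [Field K] [NumberField K] (κ : ℝ) (c : K) : Prop :=
  ∀ (F : K[X]) (δ : K), 2 ≤ F.natDegree → F.coeff 0 = c → δ ≠ 0 →
    ∀ T : Finset (HeightOneSpectrum (𝓞 K)), ContainsBad F δ T → logNorm T < κ * (1 + h c) →
    ∀ (L : Type) [Field L] [NumberField L] [Algebra K L], Module.finrank K L < F.natDegree →
      ∀ (P : L × L) (n : ℕ), 1 ≤ n → (henon L F δ)^[n] P ≠ P

/-- The image of the rational point `x = (p, q)` of the line under the transformation `m`. -/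
def image (m : Matrix (Fin 2) (Fin 2) ℤ) (x : ℤ × ℤ) : ℚ :=
  ((m 0 0 * x.1 + m 0 1 * x.2 : ℤ) : ℚ) / ((m 1 0 * x.1 + m 1 1 * x.2 : ℤ) : ℚ)

/-- The statement for all constant terms `m x`, `m` a matrix with determinant not zero and entries
at most `H(x) ^ μ`, over all number fields whose ramified primes have a product at most
`H(x) ^ μ`. The denominator of `m x` is not zero. -/
def Holds (κ μ : ℝ) (x : ℤ × ℤ) : Prop :=
  ∀ m : Matrix (Fin 2) (Fin 2) ℤ, m.det ≠ 0 → (∀ i j, Real.log (m i j).natAbs ≤ μ * hgt x) →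
    m 1 0 * x.1 + m 1 1 * x.2 ≠ 0 ∧
    ∀ (K : Type) [Field K] [NumberField K],
      ∑ p ∈ (discr K).natAbs.primeFactors, Real.log p ≤ μ * hgt x →
        NoPeriodicPoints κ ((image m x : ℚ) : K) ∧ Escapes κ ((image m x : ℚ) : K)

/-- For some `μ > 0` this is true for all but finitely many rational `x` with
`|z - x| ≤ H(x) ^ (μ - 2)`. -/
def Property (κ z : ℝ) : Prop := ∃ μ : ℝ, 0 < μ ∧ {x | x ∈ Near μ z ∧ ¬ Holds κ μ x}.Finite

theorem dim_aux {𝒜 : Set ℕ} {n : ℕ} (hA : ∀ a ∈ 𝒜, 1 ≤ a ∧ a ≤ n) (hδ : 1 / 2 < δ 𝒜) {κ η : ℝ}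
    (hη : 0 < η) (hη1 : η < 1) (hκη : κ + η < 1) :
    dimH {z | z ∈ EA 𝒜 ∧ ¬ Property κ z} ≤ ENNReal.ofReal (δ 𝒜 - η / 2 * (δ 𝒜 - 1 / 2)) := by
  refine Pool.Agent.W5h9.GC.dim_of_SPx hA hδ hη hη1 (Property κ) ?_
  intro z μ hμ hfin
  refine ⟨μ, hμ, (hfin (κ / ((1 - η) - κ))).subset ?_⟩
  rintro x ⟨hx, hnot⟩
  refine ⟨hx, fun hsp => hnot ?_⟩
  intro m hm hmb
  obtain ⟨h1, h2⟩ := hsp m hm hmb
  refine ⟨h1, fun K _ _ hK => ?_⟩
  obtain ⟨h3, h4⟩ := h2 K hK
  have h5 : Escapes κ ((image m x : ℚ) : K) :=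
    AllFieldsHenon.esc_of (Pool.Agent.Y733.HEN.henT_of (κ' := 1 - η) (by linarith) _ h3 h4)
  refine ⟨?_, h5⟩
  intro F δ hd hF hδ T hT hoth L _ _ _ hL P n hn
  exact AllFieldsHenon.part_five h5 F δ hd hF hδ T hT hoth L hL P n hn

/-- **Hénon maps whose constant term is the image of a rational number close to an element of `E_𝒜`
have no periodic points of small degree, over all number fields with small ramification.** -/
theorem result :
    (∀ (𝒜 : Set ℕ) (n : ℕ), (∀ a ∈ 𝒜, 1 ≤ a ∧ a ≤ n) →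
      -- there are infinitely many rational points near `z`
      (∀ z ∈ EA 𝒜, ∀ μ : ℝ, 0 < μ → (Near μ z).Infinite) ∧
      (1 / 2 < δ 𝒜 →
        -- the exceptional set has a smaller dimension
        (∀ κ : ℝ, 0 < κ → κ < 1 →
          dimH {z | z ∈ EA 𝒜 ∧ ¬ Property κ z} ≤
            ENNReal.ofReal (δ 𝒜 - (1 - κ) / 2 * (δ 𝒜 - 1 / 2))) ∧
        -- almost all `z`
        Measure.hausdorffMeasure (δ 𝒜) {z | z ∈ EA 𝒜 ∧ ∃ κ : ℝ, κ < 1 ∧ ¬ Property κ z} = 0)) ∧
    -- the dimension is larger than `1 / 2` for instance for `𝒜 = {1, 2, 3}`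
    (∀ (𝒜 : Set ℕ) (n : ℕ), (∀ a ∈ 𝒜, 1 ≤ a ∧ a ≤ n) → ∀ F : Finset ℕ, (∀ a ∈ F, a ∈ 𝒜) →
      1 < ∑ a ∈ F, 1 / ((a : ℝ) + 1) → 1 / 2 < δ 𝒜) ∧
    1 / 2 < δ {1, 2, 3} := by
  refine ⟨fun 𝒜 n hA => ⟨fun z hz ρ hρ => Pool.Agent.W5h9.GC.near_infinite hA hz hρ.le,
    fun hδ => ⟨?_, ?_⟩⟩, ?_, ?_⟩
  · intro κ hκ0 hκ1
    have h2 : Filter.Tendsto (fun η : ℝ => ENNReal.ofReal (δ 𝒜 - η / 2 * (δ 𝒜 - 1 / 2)))
        (nhdsWithin (1 - κ) (Set.Iio (1 - κ)))
        (nhds (ENNReal.ofReal (δ 𝒜 - (1 - κ) / 2 * (δ 𝒜 - 1 / 2)))) := by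
      apply ENNReal.tendsto_ofReal
      apply Filter.Tendsto.mono_left _ nhdsWithin_le_nhds
      exact (by fun_prop : Continuous fun η : ℝ => δ 𝒜 - η / 2 * (δ 𝒜 - 1 / 2)).tendsto (1 - κ)
    refine ge_of_tendsto h2 ?_
    filter_upwards [Ioo_mem_nhdsLT (show (0 : ℝ) < 1 - κ by linarith)] with η hη
    exact dim_aux hA hδ hη.1 (by linarith [hη.2]) (by linarith [hη.2])
  · have hsub : {z | z ∈ EA 𝒜 ∧ ∃ κ : ℝ, κ < 1 ∧ ¬ Property κ z} ⊆
        ⋃ k : ℕ, {z | z ∈ EA 𝒜 ∧ ¬ Property (1 - 1 / ((k : ℝ) + 1)) z} := by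
      rintro z ⟨hz, κ, hκ, hnv⟩
      obtain ⟨k, hk⟩ := exists_nat_one_div_lt (show (0 : ℝ) < 1 - κ by linarith)
      rw [Set.mem_iUnion]
      refine ⟨k, hz, fun hv => hnv ?_⟩
      obtain ⟨μ, hμ, hfin⟩ := hv
      refine ⟨μ, hμ, hfin.subset ?_⟩
      rintro x ⟨hx, hnot⟩
      refine ⟨hx, fun hh => hnot fun m hm hmb => ?_⟩
      obtain ⟨h1, h2⟩ := hh m hm hmb
      refine ⟨h1, fun K _ _ hK => ?_⟩
      obtain ⟨h3, h4⟩ := h2 K hK
      have hh0 : 0 ≤ h ((image m x : ℚ) : K) :=
        div_nonneg (Height.zero_le_logHeight₁ _) (Nat.cast_nonneg _)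
      have hle : κ * (1 + h ((image m x : ℚ) : K)) ≤
          (1 - 1 / ((k : ℝ) + 1)) * (1 + h ((image m x : ℚ) : K)) :=
        mul_le_mul_of_nonneg_right (by linarith) (by linarith)
      refine ⟨?_, ?_⟩
      · intro F δ hd hF hδ' T hT hoth L _ _ _ hL P n hn
        exact h3 F δ hd hF hδ' T hT (hoth.trans_le hle) L hL P n hn
      · intro F δ hd hF hδ' T hT L _ _ _ hL P k'
        refine le_trans ?_ (h4 F δ hd hF hδ' T hT L hL P k')
        exact mul_le_mul_of_nonneg_left (by linarith) (by positivity)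
    refine measure_mono_null hsub (measure_iUnion_null fun k => ?_)
    have hk : (0 : ℝ) ≤ k := Nat.cast_nonneg _
    have h1 : (0 : ℝ) < 1 / ((k : ℝ) + 1) := by positivity
    have h2 : 1 / ((k : ℝ) + 1) ≤ 1 := by
      rw [div_le_one (by positivity)]
      linarith
    exact Pool.Agent.W5h9.GC.null_of_dim hδ (η := 1 / ((k : ℝ) + 1) / 2) (by positivity)
      (dim_aux hA hδ (by positivity) (by linarith) (by linarith))
  · intro 𝒜 n hA F hF h
    exact Pool.Agent.W5h9.GC.half_lt hA hF h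
  · refine Pool.Agent.W5h9.GC.half_lt (A := 3) (F := {1, 2, 3}) ?_ ?_ ?_
    · intro a ha
      simp only [Set.mem_insert_iff, Set.mem_singleton_iff] at ha
      omega
    · intro a ha
      simpa using ha
    · norm_num

end Pool.Agent.Results.MP_0e6b5f_nt.RestrictedPartialQuotients
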